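import Pool.Agent.PWI.Base

/-!
# RGC module HOMZ: counting homomorphisms of closed surface groups

Proof. `wz p = ∏ [p_i.1, p_i.2]` (ordered) for `p : Fin h → G × G`. Reversing the order and swapping the
pairs (`rv`) inverts `wz` (`[a, b]⁻¹ = [b, a]`). Tuples `p : Fin g → G × G` with `wz p = 1` inject into
`Hom (SG g 0) G` (`toHom`). `g = 2 h`: such tuples contain the pairs `(p, p')` with `wz p = wz p'`, at
least `q^(4h) / q` by Cauchy-Schwarz. `g = 2 h + 1`: one more handle with images `(a, 1)`.
-/

set_option autoImplicit false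

namespace Pool.Agent.RGC

namespace HZ

open Pool.Agent.PWI

/-- Cauchy-Schwarz: the number of pairs with the same image. -/
theorem card_sq_le {X Y : Type} [Finite X] [Finite Y] (f : X → Y) :
    Nat.card X ^ 2 ≤ Nat.card Y * Nat.card {pq : X × X // f pq.1 = f pq.2} := by
  classical
  have := Fintype.ofFinite Y
  have h1 : Nat.card X = ∑ y : Y, Nat.card {x : X // f x = y} := by
    rw [← Nat.card_sigma]
    exact (Nat.card_congr (Equiv.sigmaFiberEquiv f)).symm
  have h2 : Nat.card {pq : X × X // f pq.1 = f pq.2} = ∑ y : Y, Nat.card {x : X // f x = y} ^ 2 := by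
    have e : {pq : X × X // f pq.1 = f pq.2} ≃ Σ y : Y, {x : X // f x = y} × {x : X // f x = y} :=
      { toFun := fun pq => ⟨f pq.1.1, ⟨pq.1.1, rfl⟩, ⟨pq.1.2, pq.2.symm⟩⟩
        invFun := fun s => ⟨(s.2.1.1, s.2.2.1), s.2.1.2.trans s.2.2.2.symm⟩
        left_inv := fun _ => rfl
        right_inv := by rintro ⟨x, ⟨p, rfl⟩, ⟨q, hq⟩⟩; rfl }
    rw [Nat.card_congr e, Nat.card_sigma]
    refine Finset.sum_congr rfl fun y _ => ?_
    rw [Nat.card_prod, sq]
  rw [h2, h1, Nat.card_eq_fintype_card (α := Y), ← Finset.card_univ]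
  exact sq_sum_le_card_mul_sum_sq

section

variable {G : Type} [Group G]

/-- The commutator of a pair. -/
def cmz (p : G × G) : G := p.1 * p.2 * p.1⁻¹ * p.2⁻¹

/-- The product of the commutators. -/
def wz {h : ℕ} (p : Fin h → G × G) : G := (List.ofFn fun i => cmz (p i)).prod

theorem cmz_swap (p : G × G) : cmz p.swap = (cmz p)⁻¹ := by
  simp [cmz, mul_assoc]

/-- Reversed and swapped tuple. -/
def rv {h : ℕ} (p : Fin h → G × G) : Fin h → G × G := fun i => (p (Fin.rev i)).swap

theorem wz_rv {h : ℕ} (p : Fin h → G × G) : wz (rv p) = (wz p)⁻¹ := by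
  rw [wz, wz, List.prod_inv_reverse, List.map_ofFn]
  congr 1
  refine List.ext_getElem (by simp) fun i h1 h2 => ?_
  rw [List.getElem_reverse]
  simp only [List.getElem_ofFn, rv, cmz_swap, Function.comp_apply, List.length_ofFn]
  congr 3
  apply Fin.ext
  simp only [Fin.val_rev]
  omega

omit [Group G] in
theorem rv_inj {h : ℕ} : Function.Injective (rv : (Fin h → G × G) → Fin h → G × G) := by
  intro p q hpq
  funext i
  have := congrFun hpq (Fin.rev i)
  simpa [rv] using this

theorem wz_append {h k : ℕ} (p : Fin h → G × G) (q : Fin k → G × G) :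
    wz (Fin.append p q) = wz p * wz q := by
  have : (fun i => cmz (Fin.append p q i)) =
      Fin.append (fun i => cmz (p i)) (fun i => cmz (q i)) := by
    funext i
    refine Fin.addCases (fun j => ?_) (fun j => ?_) i <;> simp
  rw [wz, this, List.ofFn_fin_append, List.prod_append, wz, wz]

theorem wz_cons {h : ℕ} (x : G × G) (q : Fin h → G × G) :
    wz (Fin.cons x q : Fin (h + 1) → G × G) = cmz x * wz q := by
  rw [wz, List.ofFn_succ, List.prod_cons]
  simp [wz]

/-- Homomorphisms of the closed surface group from tuples. -/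
def toHom {g : ℕ} (p : {p : Fin g → G × G // wz p = 1}) : SG g 0 →* G :=
  PresentedGroup.toGroup (rels := ({rel g 0} : Set (FreeGroup (Gen g 0))))
    (f := fun x => match x with
      | Gen.a i => (p.1 i).1
      | Gen.b i => (p.1 i).2
      | Gen.z i => i.elim0) (by
    intro r hr
    rw [Set.mem_singleton_iff] at hr
    subst hr
    rw [rel, map_mul, map_list_prod, List.map_ofFn]
    simp only [List.ofFn_zero, List.prod_nil, map_one, mul_one]
    refine Eq.trans ?_ p.2
    rw [wz]
    congr 2
    funext i
    simp [cmz])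

theorem toHom_inj {g : ℕ} :
    Function.Injective (toHom : {p : Fin g → G × G // wz p = 1} → (SG g 0 →* G)) := by
  intro p q hpq
  apply Subtype.ext
  funext i
  have ha := DFunLike.congr_fun hpq (PresentedGroup.of (Gen.a i))
  have hb := DFunLike.congr_fun hpq (PresentedGroup.of (Gen.b i))
  simp only [toHom, PresentedGroup.toGroup.of] at ha hb
  exact Prod.ext ha hb

theorem finHom (g : ℕ) [Finite G] : Finite (SG g 0 →* G) := by
  have : Finite (Gen g 0) := by
    refine Finite.of_injective
      (fun x : Gen g 0 => (match x with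
        | Gen.a i => Sum.inl i
        | Gen.b i => Sum.inr i
        | Gen.z i => i.elim0 : Fin g ⊕ Fin g)) ?_
    rintro (i | i | i) (j | j | j) h <;>
      first
        | exact i.elim0
        | exact j.elim0
        | simp_all
  refine Finite.of_injective
    (fun (ρ : SG g 0 →* G) (x : Gen g 0) => ρ (PresentedGroup.of x)) ?_
  intro ρ σ h
  exact PresentedGroup.ext fun x => congrFun h x

end

end HZ

open Pool.Agent.PWI HZ

theorem hom_lower_zero (g : ℕ) (G : Type) [Group G] [Fintype G] :
    Fintype.card G ^ (2 * g) ≤ Fintype.card G ^ 2 * Nat.card (SG g 0 →* G) := by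
  classical
  set q := Fintype.card G with hq
  have hqpos : 1 ≤ q := Fintype.card_pos
  have hN : Nat.card {p : Fin g → G × G // wz p = 1} ≤ Nat.card (SG g 0 →* G) := by
    have := finHom (G := G) g
    exact Nat.card_le_card_of_injective _ toHom_inj
  refine le_trans ?_ (Nat.mul_le_mul_left _ hN)
  -- even case
  have hev : ∀ h : ℕ, q ^ (4 * h) ≤ q * Nat.card {p : Fin (h + h) → G × G // wz p = 1} := by
    intro h
    have h1 := card_sq_le (X := Fin h → G × G) (Y := G) wz
    have h2 : Nat.card (Fin h → G × G) = q ^ (2 * h) := by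
      rw [Nat.card_fun, Nat.card_prod, Nat.card_eq_fintype_card, Nat.card_eq_fintype_card,
        Fintype.card_fin, ← hq, ← sq, ← pow_mul]
    have h3 : Nat.card {pq : (Fin h → G × G) × (Fin h → G × G) // wz pq.1 = wz pq.2} ≤
        Nat.card {p : Fin (h + h) → G × G // wz p = 1} := by
      refine Nat.card_le_card_of_injective
        (fun pq => ⟨Fin.append pq.1.1 (rv pq.1.2), ?_⟩) ?_
      · rw [wz_append, wz_rv, pq.2, mul_inv_cancel]
      · rintro ⟨⟨p, r⟩, hp⟩ ⟨⟨p', r'⟩, hp'⟩ hh
        have h0 := Subtype.ext_iff.1 hh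
        simp only at h0
        have e1 : p = p' := by
          funext i
          simpa using congrFun h0 (Fin.castAdd h i)
        have e2 : rv r = rv r' := by
          funext i
          have := congrFun h0 (Fin.natAdd h i)
          rwa [Fin.append_right, Fin.append_right] at this
        subst e1
        have e3 := rv_inj e2
        subst e3
        rfl
    rw [h2, Nat.card_eq_fintype_card (α := G), ← hq, ← pow_mul] at h1
    calc q ^ (4 * h) = q ^ (2 * h * 2) := by ring_nf
      _ ≤ _ := h1.trans (Nat.mul_le_mul_left _ h3)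
  rcases Nat.even_or_odd' g with ⟨h, rfl | rfl⟩
  · have := hev h
    rw [show h + h = 2 * h by ring] at this
    calc q ^ (2 * (2 * h)) = q ^ (4 * h) := by ring_nf
      _ ≤ q * _ := this
      _ ≤ q ^ 2 * _ := Nat.mul_le_mul_right _ (by nlinarith)
  · have h1 := hev h
    rw [show h + h = 2 * h by ring] at h1
    have h2 : q * Nat.card {p : Fin (2 * h) → G × G // wz p = 1} ≤
        Nat.card {p : Fin (2 * h + 1) → G × G // wz p = 1} := by
      rw [hq, ← Nat.card_eq_fintype_card, ← Nat.card_prod]
      refine Nat.card_le_card_of_injective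
        (fun ap => ⟨(Fin.cons (ap.1, 1) ap.2.1 : Fin (2 * h + 1) → G × G), ?_⟩) ?_
      · rw [wz_cons, ap.2.2]
        simp [cmz]
      · rintro ⟨a, ⟨p, hp⟩⟩ ⟨b, ⟨r, hr⟩⟩ h
        have h0 := Subtype.ext_iff.1 h
        simp only at h0
        have h3 := Fin.cons_injective2 h0
        obtain ⟨e1, e2⟩ := h3
        simp only [Prod.mk.injEq, and_true] at e1
        subst e1
        subst e2
        rfl
    calc q ^ (2 * (2 * h + 1)) = q ^ 2 * q ^ (4 * h) := by ring
      _ ≤ q ^ 2 * (q * Nat.card {p : Fin (2 * h) → G × G // wz p = 1}) :=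
          Nat.mul_le_mul_left _ h1
      _ ≤ _ := Nat.mul_le_mul_left _ h2

end Pool.Agent.RGC
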