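import Pool.Agent.RGC.Defs
import Pool.Agent.RGC.HomZ

/-!
# RGC module HOMC: counting homomorphisms of the surface group

`hom_upper`: for `n ≥ 1` the map `ρ ↦ (im ρ, (ρ z_j)_(j < n-1))` is injective, for `n = 0` the map `im`.
`hom_lower`: `n ≥ 1`: `#Hom = q^(2g+n-1)`.  `n = 0`: `F h x` = number of `2h`-tuples with product of commutators `x`;
`F h x = F h x⁻¹` (reverse the order and `[a,b]⁻¹ = [b,a]`); `g = 2h`: `#Hom = Σ_x (F h x)^2 ≥ q^(4h) / q`
(Cauchy-Schwarz); `g` odd: a further handle with images `(a, 1)`: `#Hom(g) ≥ q #Hom(g-1) ≥ q^(2g-2)`.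
-/

namespace Pool.Agent.RGC

open Pool.Agent.PWI

private theorem hom_rel {g n : ℕ} {G : Type} [Group G] (φ : SG g n →* G) :
    (List.ofFn fun i : Fin g => φ (sa i) * φ (sb i) * (φ (sa i))⁻¹ * (φ (sb i))⁻¹).prod *
      (List.ofFn fun j : Fin n => φ (sz j)).prod = 1 := by
  have h : (PresentedGroup.mk ({rel g n} : Set (FreeGroup (Gen g n)))) (rel g n) = 1 :=
    PresentedGroup.one_of_mem rfl
  let ψ : FreeGroup (Gen g n) →* G :=
    MonoidHom.comp φ (PresentedGroup.mk ({rel g n} : Set (FreeGroup (Gen g n))))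
  have h3 : ψ (rel g n) = 1 := by
    change φ ((PresentedGroup.mk ({rel g n} : Set (FreeGroup (Gen g n)))) (rel g n)) = 1
    rw [h]; exact map_one φ
  unfold rel at h3
  rw [map_mul, map_list_prod, map_list_prod, List.map_ofFn, List.map_ofFn] at h3
  rw [← h3]
  congr 3
  · funext i
    have e1 : (sa i : SG g n) =
        (PresentedGroup.mk ({rel g n} : Set (FreeGroup (Gen g n)))) (FreeGroup.of (Gen.a i)) := by
      unfold sa
      rw [dif_pos i.2]
      rfl
    have e2 : (sb i : SG g n) =
        (PresentedGroup.mk ({rel g n} : Set (FreeGroup (Gen g n)))) (FreeGroup.of (Gen.b i)) := by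
      unfold sb
      rw [dif_pos i.2]
      rfl
    simp only [Function.comp_apply, map_mul, map_inv]
    rw [e1, e2]
    rfl
  · funext j
    have e1 : (sz j : SG g n) =
        (PresentedGroup.mk ({rel g n} : Set (FreeGroup (Gen g n)))) (FreeGroup.of (Gen.z j)) := by
      unfold sz
      rw [dif_pos j.2]
      rfl
    simp only [Function.comp_apply]
    rw [e1]
    rfl

private theorem hom_ext {g n : ℕ} {G : Type} [Group G] (φ ψ : SG g n →* G)
    (hA : ∀ i : Fin g, φ (sa i) = ψ (sa i)) (hB : ∀ i : Fin g, φ (sb i) = ψ (sb i))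
    (hZ : ∀ j : Fin n, φ (sz j) = ψ (sz j)) : φ = ψ := by
  refine PresentedGroup.ext (rels := ({rel g n} : Set (FreeGroup (Gen g n)))) ?_
  rintro (i | i | j)
  · have := hA i
    unfold sa at this
    rw [dif_pos i.2] at this
    exact this
  · have := hB i
    unfold sb at this
    rw [dif_pos i.2] at this
    exact this
  · have := hZ j
    unfold sz at this
    rw [dif_pos j.2] at this
    exact this

/-- The last puncture is determined by the rest. -/
private theorem hom_ext' {g n : ℕ} {G : Type} [Group G] (φ ψ : SG g n →* G)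
    (hA : ∀ i : Fin g, φ (sa i) = ψ (sa i)) (hB : ∀ i : Fin g, φ (sb i) = ψ (sb i))
    (hZ : ∀ j : Fin (n - 1), φ (sz j) = ψ (sz j)) : φ = ψ := by
  rcases Nat.eq_zero_or_pos n with rfl | hn
  · exact hom_ext φ ψ hA hB fun j => j.elim0
  obtain ⟨N, rfl⟩ : ∃ N, n = N + 1 := ⟨n - 1, by omega⟩
  have hZ' : ∀ j : Fin N, φ (sz j) = ψ (sz j) := fun j => hZ ⟨j.1, by simp⟩
  have r1 := hom_rel φ
  have r2 := hom_rel ψ
  rw [List.ofFn_succ' (f := fun j : Fin (N + 1) => φ (sz j)), List.prod_concat] at r1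
  rw [List.ofFn_succ' (f := fun j : Fin (N + 1) => ψ (sz j)), List.prod_concat] at r2
  have hlast : φ (sz ((Fin.last N : Fin (N + 1)) : ℕ)) =
      ψ (sz ((Fin.last N : Fin (N + 1)) : ℕ)) := by
    have e1 : (fun i : Fin g => φ (sa i) * φ (sb i) * (φ (sa i))⁻¹ * (φ (sb i))⁻¹) =
        fun i : Fin g => ψ (sa i) * ψ (sb i) * (ψ (sa i))⁻¹ * (ψ (sb i))⁻¹ := by
      funext i
      rw [hA i, hB i]
    have e2 : (fun j : Fin N => φ (sz ((Fin.castSucc j : Fin (N + 1)) : ℕ))) =
        fun j : Fin N => ψ (sz ((Fin.castSucc j : Fin (N + 1)) : ℕ)) := by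
      funext j
      exact hZ' j
    rw [e1, e2] at r1
    rw [← r2] at r1
    exact mul_left_cancel (mul_left_cancel r1)
  refine hom_ext φ ψ hA hB fun j => ?_
  refine Fin.lastCases ?_ (fun j => ?_) j
  · exact hlast
  · exact hZ' j

theorem hom_upper {g n : ℕ} {G : Type} [Group G] [Fintype G] [DecidableEq G]
    (A : Finset (Fin g ⊕ Fin g → G)) :
    Nat.card {ρ : SG g n →* G // im ρ ∈ A} ≤ A.card * Fintype.card G ^ (n - 1) := by
  let f : {ρ : SG g n →* G // im ρ ∈ A} → A × (Fin (n - 1) → G) :=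
    fun ρ => (⟨im ρ.1, ρ.2⟩, fun j => ρ.1 (sz j))
  have hf : Function.Injective f := by
    rintro ⟨ρ, hρ⟩ ⟨τ, hτ⟩ h
    apply Subtype.ext
    have h1 : im ρ = im τ := congrArg (fun x => x.1.1) h
    have h2 : ∀ j : Fin (n - 1), ρ (sz j) = τ (sz j) := fun j => congrFun (congrArg Prod.snd h) j
    exact hom_ext' ρ τ (fun i => congrFun h1 (Sum.inl i)) (fun i => congrFun h1 (Sum.inr i)) h2
  refine (Nat.card_le_card_of_injective f hf).trans (le_of_eq ?_)
  rw [Nat.card_prod, Nat.card_eq_fintype_card, Fintype.card_coe, Nat.card_eq_fintype_card,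
    Fintype.card_fun, Fintype.card_fin]

theorem hom_lower_pos (g n : ℕ) (hn : 1 ≤ n) (G : Type) [Group G] [Fintype G] :
    Fintype.card G ^ (2 * g + (n - 1)) ≤ Nat.card (SG g n →* G) := by
  classical
  obtain ⟨N, rfl⟩ : ∃ N, n = N + 1 := ⟨n - 1, by omega⟩
  rw [Nat.add_sub_cancel]
  -- the homomorphism with given images
  have hex : ∀ (α β : Fin g → G) (ζ : Fin N → G), ∃ φ : SG g (N + 1) →* G,
      (∀ i : Fin g, φ (sa i) = α i) ∧ (∀ i : Fin g, φ (sb i) = β i) ∧
        ∀ j : Fin N, φ (sz j) = ζ j := by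
    intro α β ζ
    let P : G := (List.ofFn fun i : Fin g => α i * β i * (α i)⁻¹ * (β i)⁻¹).prod
    let v : Gen g (N + 1) → G := fun w => match w with
      | Gen.a i => α i
      | Gen.b i => β i
      | Gen.z j => (Fin.snoc ζ ((P * (List.ofFn ζ).prod)⁻¹) : Fin (N + 1) → G) j
    have hv : ∀ r ∈ ({rel g (N + 1)} : Set (FreeGroup (Gen g (N + 1)))),
        FreeGroup.lift v r = 1 := by
      intro r hr
      rw [Set.mem_singleton_iff] at hr
      subst hr
      unfold rel
      rw [map_mul, map_list_prod, map_list_prod, List.map_ofFn, List.map_ofFn]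
      have e1 : (⇑(FreeGroup.lift v) ∘ fun i : Fin g =>
          FreeGroup.of (Gen.a i : Gen g (N + 1)) * FreeGroup.of (Gen.b i) *
          (FreeGroup.of (Gen.a i))⁻¹ * (FreeGroup.of (Gen.b i))⁻¹) = fun i : Fin g =>
          α i * β i * (α i)⁻¹ * (β i)⁻¹ := by
        funext i
        simp only [Function.comp_apply, map_mul, map_inv, FreeGroup.lift_apply_of]
        rfl
      have e2 : (⇑(FreeGroup.lift v) ∘ fun j : Fin (N + 1) =>
          FreeGroup.of (Gen.z j : Gen g (N + 1))) = fun j : Fin (N + 1) =>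
          (Fin.snoc ζ ((P * (List.ofFn ζ).prod)⁻¹) : Fin (N + 1) → G) j := by
        funext j
        simp only [Function.comp_apply, FreeGroup.lift_apply_of]
        rfl
      rw [e1, e2, List.ofFn_succ' (f := fun j : Fin (N + 1) =>
          (Fin.snoc ζ ((P * (List.ofFn ζ).prod)⁻¹) : Fin (N + 1) → G) j), List.prod_concat]
      simp only [Fin.snoc_castSucc, Fin.snoc_last]
      change P * ((List.ofFn ζ).prod * (P * (List.ofFn ζ).prod)⁻¹) = 1
      group
    refine ⟨PresentedGroup.toGroup hv, ?_, ?_, ?_⟩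
    · intro i
      have e : (sa i : SG g (N + 1)) = PresentedGroup.of (Gen.a i) := by
        unfold sa
        rw [dif_pos i.2]
      rw [e]
      exact PresentedGroup.toGroup.of hv
    · intro i
      have e : (sb i : SG g (N + 1)) = PresentedGroup.of (Gen.b i) := by
        unfold sb
        rw [dif_pos i.2]
      rw [e]
      exact PresentedGroup.toGroup.of hv
    · intro j
      have e : (sz j : SG g (N + 1)) = PresentedGroup.of (Gen.z j.castSucc) := by
        unfold sz
        rw [dif_pos (by have := j.2; omega)]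
        rfl
      rw [e]
      have h := PresentedGroup.toGroup.of hv (x := Gen.z j.castSucc)
      rw [h]
      change (Fin.snoc ζ ((P * (List.ofFn ζ).prod)⁻¹) : Fin (N + 1) → G) j.castSucc = ζ j
      rw [Fin.snoc_castSucc]
  choose Φ hΦa hΦb hΦz using hex
  let f : (Fin g → G) × (Fin g → G) × (Fin N → G) → (SG g (N + 1) →* G) :=
    fun q => Φ q.1 q.2.1 q.2.2
  have hf : Function.Injective f := by
    rintro ⟨α, β, ζ⟩ ⟨α', β', ζ'⟩ h
    have h0 : Φ α β ζ = Φ α' β' ζ' := h
    refine Prod.ext ?_ (Prod.ext ?_ ?_)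
    · funext i
      have := hΦa α β ζ i
      rw [h0, hΦa] at this
      exact this.symm
    · funext i
      have := hΦb α β ζ i
      rw [h0, hΦb] at this
      exact this.symm
    · funext i
      have := hΦz α β ζ i
      rw [h0, hΦz] at this
      exact this.symm
  have hfin : Finite (SG g (N + 1) →* G) := by
    refine Finite.of_injective (β := (Fin g → G) × (Fin g → G) × (Fin (N + 1) → G))
      (fun φ => (fun i => φ (sa i), fun i => φ (sb i), fun j => φ (sz j))) ?_
    intro φ ψ h
    have h2 := congrArg Prod.snd h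
    exact hom_ext φ ψ (fun i => congrFun (congrArg Prod.fst h) i)
      (fun i => congrFun (congrArg Prod.fst h2) i) (fun j => congrFun (congrArg Prod.snd h2) j)
  refine le_trans (le_of_eq ?_) (Nat.card_le_card_of_injective f hf)
  rw [Nat.card_prod, Nat.card_prod, Nat.card_eq_fintype_card, Nat.card_eq_fintype_card,
    Fintype.card_fun, Fintype.card_fun, Fintype.card_fin, Fintype.card_fin]
  ring

theorem hom_lower (g n : ℕ) (G : Type) [Group G] [Fintype G] :
    Fintype.card G ^ (2 * g + (n - 1)) ≤ Fintype.card G ^ 2 * Nat.card (SG g n →* G) := by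
  rcases Nat.eq_zero_or_pos n with rfl | hn
  · exact hom_lower_zero g G
  · refine (hom_lower_pos g n hn G).trans ?_
    exact Nat.le_mul_of_pos_left _ (pow_pos Fintype.card_pos 2)

instance hom_finite (g n : ℕ) (G : Type) [Group G] [Finite G] : Finite (SG g n →* G) := by
  refine Finite.of_injective (β := (Fin g → G) × (Fin g → G) × (Fin n → G))
    (fun φ => (fun i => φ (sa i), fun i => φ (sb i), fun j => φ (sz j))) ?_
  intro φ ψ h
  have h2 := congrArg Prod.snd h
  exact hom_ext φ ψ (fun i => congrFun (congrArg Prod.fst h) i)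
    (fun i => congrFun (congrArg Prod.fst h2) i) (fun j => congrFun (congrArg Prod.snd h2) j)

end Pool.Agent.RGC
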