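import Pool.Agent.RGC.Defs

/-!
# RGC module ER: ordered subproducts hit a value (second moment, Erdős–Rényi)

`L = 2^m - 1`, `q = |G|`, `N u = #{S ⊆ range m, S ≠ ∅, sp (u ∘ e) S m = x u}`.
Lemma U (coordinate `i`): if `Q` does not depend on coordinate `i` and for every `u` there is exactly one `y`
with `P (update u i y)` then `#{P ∧ Q} * q = #{Q}` (bijection `{P ∧ Q} × G ≃ {Q}`, `(u, y) ↦ update u i y`).
So `#{u | sp_S u = x u} * q = q ^ card ι` for `S ≠ ∅` (any `i ∈ S`), and for `S ≠ S'` nonempty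
`#{u | sp_S u = x u ∧ sp_S' u = x u} * q^2 = q ^ card ι`. Hence `Σ_u (q N u - L)^2 ≤ L q^(card ι + 1)`, and
bad `u` (`N u = 0`) contribute `L^2` each.
-/

namespace Pool.Agent.RGC

open Finset

/-- one free coordinate -/
private theorem er_U {ι G : Type} [Fintype ι] [DecidableEq ι] [Fintype G] [DecidableEq G]
    (i : ι) (P Q : (ι → G) → Prop) [DecidablePred P] [DecidablePred Q]
    (hQ : ∀ u y, Q (Function.update u i y) ↔ Q u)
    (hP : ∀ u, ∃! y, P (Function.update u i y)) :
    (univ.filter fun u => P u ∧ Q u).card * Fintype.card G = (univ.filter fun u => Q u).card := by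
  rw [← Finset.card_univ (α := G), ← Finset.card_product]
  refine Finset.card_bij (fun z _ => Function.update z.1 i z.2) ?_ ?_ ?_
  · rintro ⟨u, y⟩ h
    rw [Finset.mem_product, Finset.mem_filter] at h
    rw [Finset.mem_filter]
    exact ⟨Finset.mem_univ _, (hQ u y).2 h.1.2.2⟩
  · rintro ⟨u, y⟩ h ⟨u', y'⟩ h' heq
    rw [Finset.mem_product, Finset.mem_filter] at h h'
    simp only at heq h h'
    have e1 : y = y' := by
      have := congrFun heq i
      simpa using this
    have e2 : Function.update u i (u' i) = u' := by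
      funext j
      by_cases hj : j = i
      · subst hj
        simp
      · have := congrFun heq j
        rw [Function.update_of_ne hj, Function.update_of_ne hj] at this
        rw [Function.update_of_ne hj, this]
    have e3 : u i = u' i := by
      refine (hP u).unique ?_ ?_
      · rw [Function.update_eq_self]
        exact h.1.2.1
      · rw [e2]
        exact h'.1.2.1
    rw [← e3, Function.update_eq_self] at e2
    rw [e1, e2]
  · intro w hw
    rw [Finset.mem_filter] at hw
    obtain ⟨y, hy, -⟩ := hP w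
    refine ⟨(Function.update w i y, w i), ?_, ?_⟩
    · rw [Finset.mem_product, Finset.mem_filter]
      exact ⟨⟨Finset.mem_univ _, hy, (hQ w y).2 hw.2⟩, Finset.mem_univ _⟩
    · simp

private theorem sp_congr {G : Type*} [Group G] (c c' : ℕ → G) (S : Finset ℕ) (m : ℕ)
    (h : ∀ j < m, j ∈ S → c j = c' j) : sp c S m = sp c' S m := by
  induction m with
  | zero => rfl
  | succ m ih =>
    rw [sp, sp, ih fun j hj hS => h j (by omega) hS]
    split_ifs with hm
    · rw [h m (by omega) hm]
    · rfl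

private theorem sp_split {G : Type*} [Group G] (c : ℕ → G) (S : Finset ℕ) {i : ℕ} (hi : i ∈ S)
    (m : ℕ) (him : i < m) : ∃ a b : G, ∀ y, sp (Function.update c i y) S m = a * y * b := by
  induction m with
  | zero => omega
  | succ m ih =>
    rcases Nat.lt_or_ge i m with h | h
    · obtain ⟨a, b, hab⟩ := ih h
      refine ⟨a, b * (if m ∈ S then c m else 1), fun y => ?_⟩
      rw [sp, hab, Function.update_of_ne (by omega : m ≠ i)]
      group
    · have him' : i = m := by omega
      subst him'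
      refine ⟨sp c S i, 1, fun y => ?_⟩
      rw [sp, if_pos hi, Function.update_self, mul_one]
      congr 1
      refine sp_congr _ _ S i fun j hj _ => ?_
      rw [Function.update_of_ne (by omega : j ≠ i)]

theorem er {ι G : Type} [Fintype ι] [DecidableEq ι] [Group G] [Fintype G] [DecidableEq G]
    (m : ℕ) (e : ℕ → ι) (he : ∀ i < m, ∀ j < m, e i = e j → i = j) (x : (ι → G) → G)
    (hx : ∀ u i y, i < m → x (Function.update u (e i) y) = x u) :
    (univ.filter fun u : ι → G => ∀ S ∈ (range m).powerset, S.Nonempty →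
      sp (fun j => u (e j)) S m ≠ x u).card * (2 ^ m - 1) ≤
        Fintype.card G ^ (Fintype.card ι + 1) := by
  classical
  set 𝒮 : Finset (Finset ℕ) := (range m).powerset.erase ∅ with h𝒮
  have hmem : ∀ S, S ∈ 𝒮 ↔ S.Nonempty ∧ S ⊆ range m := by
    intro S
    rw [h𝒮, Finset.mem_erase, Finset.mem_powerset, Finset.nonempty_iff_ne_empty]
  have hcard : 𝒮.card = 2 ^ m - 1 := by
    rw [h𝒮, Finset.card_erase_of_mem (Finset.empty_mem_powerset _), Finset.card_powerset,
      Finset.card_range]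
  set q : ℕ := Fintype.card G with hq
  set c : ℕ := Fintype.card ι with hc
  have hΩ : Fintype.card (ι → G) = q ^ c := by
    rw [Fintype.card_fun]
  let A : Finset ℕ → (ι → G) → Prop := fun S u => sp (fun j => u (e j)) S m = x u
  -- the dependence on one coordinate
  have hupd : ∀ (u : ι → G) (i : ℕ) (y : G) (S : Finset ℕ), i < m →
      sp (fun j => Function.update u (e i) y (e j)) S m =
        sp (Function.update (fun j => u (e j)) i y) S m := by
    intro u i y S him
    refine sp_congr _ _ S m fun j hj _ => ?_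
    by_cases hji : j = i
    · subst hji
      simp
    · have h1 : e j ≠ e i := fun h => hji (he j hj i him h)
      rw [Function.update_of_ne h1, Function.update_of_ne hji]
  have hPA : ∀ (S : Finset ℕ) (i : ℕ), i ∈ S → i < m →
      ∀ u : ι → G, ∃! y, A S (Function.update u (e i) y) := by
    intro S i hi him u
    obtain ⟨a, b, hab⟩ := sp_split (fun j => u (e j)) S hi m him
    refine ⟨a⁻¹ * x u * b⁻¹, ?_, ?_⟩
    · change sp (fun j => Function.update u (e i) (a⁻¹ * x u * b⁻¹) (e j)) S m = _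
      rw [hupd u i _ S him, hab, hx u i _ him]
      group
    · intro y hy
      have hy' : sp (fun j => Function.update u (e i) y (e j)) S m =
          x (Function.update u (e i) y) := hy
      rw [hupd u i _ S him, hab, hx u i _ him] at hy'
      rw [← hy']
      group
  have hQA : ∀ (S : Finset ℕ) (i : ℕ), i ∉ S → i < m →
      ∀ (u : ι → G) (y : G), A S (Function.update u (e i) y) ↔ A S u := by
    intro S i hi him u y
    change sp (fun j => Function.update u (e i) y (e j)) S m = x (Function.update u (e i) y) ↔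
      sp (fun j => u (e j)) S m = x u
    rw [hupd u i _ S him, hx u i _ him]
    have h1 : sp (Function.update (fun j => u (e j)) i y) S m = sp (fun j => u (e j)) S m := by
      refine sp_congr _ _ S m fun j _ hjS => ?_
      have h2 : j ≠ i := fun h => hi (h ▸ hjS)
      rw [Function.update_of_ne h2]
    rw [h1]
  -- the counts
  have hone : ∀ S ∈ 𝒮, (univ.filter fun u => A S u).card * q = q ^ c := by
    intro S hS
    obtain ⟨⟨i, hi⟩, hsub⟩ := (hmem S).1 hS
    have him : i < m := Finset.mem_range.1 (hsub hi)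
    have h1 := er_U (e i) (A S) (fun _ => True) (fun _ _ => Iff.rfl) (hPA S i hi him)
    simp only [and_true, Finset.filter_true] at h1
    rw [Finset.card_univ, hΩ] at h1
    exact h1
  have htwo' : ∀ S ∈ 𝒮, ∀ S' ∈ 𝒮, ∀ i ∈ S, i ∉ S' →
      (univ.filter fun u => A S u ∧ A S' u).card * q * q = q ^ c := by
    intro S hS S' hS' i hi hi'
    have him : i < m := Finset.mem_range.1 (((hmem S).1 hS).2 hi)
    have h1 := er_U (e i) (A S) (A S') (fun u y => hQA S' i hi' him u y) (hPA S i hi him)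
    rw [h1, hone S' hS']
  have htwo : ∀ S ∈ 𝒮, ∀ S' ∈ 𝒮, S ≠ S' →
      (univ.filter fun u => A S u ∧ A S' u).card * q * q = q ^ c := by
    intro S hS S' hS' hne
    by_cases h1 : S ⊆ S'
    · have h2 : ¬ S' ⊆ S := fun h => hne (Finset.Subset.antisymm h1 h)
      obtain ⟨i, hi, hi'⟩ := Finset.not_subset.1 h2
      have h3 := htwo' S' hS' S hS i hi hi'
      have h4 : (univ.filter fun u => A S u ∧ A S' u) = univ.filter fun u => A S' u ∧ A S u := by
        ext u
        simp only [Finset.mem_filter, Finset.mem_univ, true_and]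
        exact and_comm
      rw [h4]
      exact h3
    · obtain ⟨i, hi, hi'⟩ := Finset.not_subset.1 h1
      exact htwo' S hS S' hS' i hi hi'
  -- second moment
  let f : Finset ℕ → (ι → G) → ℤ := fun S u => if A S u then 1 else 0
  have hf1 : ∀ S ∈ 𝒮, (q : ℤ) * ∑ u, f S u = (q : ℤ) ^ c := by
    intro S hS
    have h1 := hone S hS
    have h2 : ∑ u, f S u = ((univ.filter fun u => A S u).card : ℤ) := by
      simp only [f]
      rw [Finset.sum_boole]
    rw [h2, mul_comm]
    exact_mod_cast h1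
  have hf2 : ∀ S ∈ 𝒮, ∀ S' ∈ 𝒮, S ≠ S' →
      (q : ℤ) ^ 2 * ∑ u, f S u * f S' u = (q : ℤ) ^ c := by
    intro S hS S' hS' hne
    have h1 := htwo S hS S' hS' hne
    have h2 : ∑ u, f S u * f S' u = ((univ.filter fun u => A S u ∧ A S' u).card : ℤ) := by
      rw [← Finset.sum_boole]
      refine Finset.sum_congr rfl fun u _ => ?_
      simp only [f]
      by_cases ha : A S u <;> by_cases hb : A S' u <;> simp [ha, hb]
    rw [h2]
    have h3 : (((univ.filter fun u => A S u ∧ A S' u).card * q * q : ℕ) : ℤ) = ((q ^ c : ℕ) : ℤ) := by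
      rw [h1]
    push_cast at h3
    linear_combination h3
  have hf3 : ∀ S ∈ 𝒮, (q : ℤ) ^ 2 * ∑ u, f S u * f S u = q * (q : ℤ) ^ c := by
    intro S hS
    have h1 := hf1 S hS
    have h2 : ∑ u, f S u * f S u = ∑ u, f S u := by
      refine Finset.sum_congr rfl fun u _ => ?_
      simp only [f]
      split_ifs <;> norm_num
    rw [h2]
    linear_combination (q : ℤ) * h1
  set L : ℤ := (𝒮.card : ℤ) with hL
  have hsq : ∑ u : ι → G, ((q : ℤ) * ∑ S ∈ 𝒮, f S u - L) ^ 2 =
      L * (q * (q : ℤ) ^ c) - L * (q : ℤ) ^ c := by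
    have h1 : ∀ u : ι → G, ((q : ℤ) * ∑ S ∈ 𝒮, f S u - L) ^ 2 =
        (q : ℤ) ^ 2 * (∑ S ∈ 𝒮, ∑ S' ∈ 𝒮, f S u * f S' u) - 2 * L * ((q : ℤ) * ∑ S ∈ 𝒮, f S u) +
          L ^ 2 := by
      intro u
      rw [← Finset.sum_mul_sum]
      ring
    simp only [h1]
    rw [Finset.sum_add_distrib, Finset.sum_sub_distrib, ← Finset.mul_sum, ← Finset.mul_sum,
      ← Finset.mul_sum, Finset.sum_const, Finset.card_univ, hΩ]
    have h2 : ∑ u : ι → G, ∑ S ∈ 𝒮, f S u = ∑ S ∈ 𝒮, ∑ u, f S u := Finset.sum_comm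
    have h3 : ∑ u : ι → G, ∑ S ∈ 𝒮, ∑ S' ∈ 𝒮, f S u * f S' u =
        ∑ S ∈ 𝒮, ∑ S' ∈ 𝒮, ∑ u, f S u * f S' u := by
      rw [Finset.sum_comm]
      refine Finset.sum_congr rfl fun S _ => ?_
      rw [Finset.sum_comm]
    have h4 : (q : ℤ) * ∑ S ∈ 𝒮, ∑ u, f S u = L * (q : ℤ) ^ c := by
      rw [Finset.mul_sum, Finset.sum_congr rfl hf1, Finset.sum_const, nsmul_eq_mul]
    have h5 : (q : ℤ) ^ 2 * ∑ S ∈ 𝒮, ∑ S' ∈ 𝒮, ∑ u, f S u * f S' u =
        L * (q * (q : ℤ) ^ c + (L - 1) * (q : ℤ) ^ c) := by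
      rw [Finset.mul_sum]
      have h6 : ∀ S ∈ 𝒮, (q : ℤ) ^ 2 * ∑ S' ∈ 𝒮, ∑ u, f S u * f S' u =
          q * (q : ℤ) ^ c + (L - 1) * (q : ℤ) ^ c := by
        intro S hS
        rw [← Finset.add_sum_erase 𝒮 _ hS, mul_add, hf3 S hS, Finset.mul_sum]
        congr 1
        rw [Finset.sum_congr rfl (fun S' hS' => hf2 S hS S' (Finset.mem_of_mem_erase hS')
          (Finset.ne_of_mem_erase hS').symm), Finset.sum_const, nsmul_eq_mul,
          Finset.card_erase_of_mem hS, Nat.cast_sub (Finset.card_pos.2 ⟨S, hS⟩)]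
        push_cast
        rfl
      rw [Finset.sum_congr rfl h6, Finset.sum_const, nsmul_eq_mul]
    rw [h2, h3, h4, h5, nsmul_eq_mul]
    push_cast
    ring
  set B := univ.filter fun u : ι → G => ∀ S ∈ (range m).powerset, S.Nonempty →
      sp (fun j => u (e j)) S m ≠ x u with hB
  have hlow : (B.card : ℤ) * L ^ 2 ≤ ∑ u : ι → G, ((q : ℤ) * ∑ S ∈ 𝒮, f S u - L) ^ 2 := by
    have h1 : ∑ u ∈ B, ((q : ℤ) * ∑ S ∈ 𝒮, f S u - L) ^ 2 = (B.card : ℤ) * L ^ 2 := by
      rw [Finset.sum_congr rfl (g := fun _ => L ^ 2), Finset.sum_const, nsmul_eq_mul]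
      intro u hu
      have hu' := (Finset.mem_filter.1 hu).2
      have h2 : ∑ S ∈ 𝒮, f S u = 0 := by
        refine Finset.sum_eq_zero fun S hS => ?_
        obtain ⟨h3, h4⟩ := (hmem S).1 hS
        have h5 : ¬ A S u := hu' S (Finset.mem_powerset.2 h4) h3
        simp only [f]
        rw [if_neg h5]
      rw [h2]
      ring
    rw [← h1]
    exact Finset.sum_le_sum_of_subset_of_nonneg (Finset.subset_univ _) fun u _ _ => sq_nonneg _
  rw [hsq] at hlow
  rw [← hcard]
  have hq0 : (0 : ℤ) ≤ (q : ℤ) ^ c := by positivity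
  have hL0 : 0 ≤ L := by
    rw [hL]
    positivity
  rcases hL0.eq_or_lt with h0 | h0
  · have h1 : 𝒮.card = 0 := by
      have : (𝒮.card : ℤ) = 0 := by rw [← hL]; exact h0.symm
      exact_mod_cast this
    rw [h1, mul_zero]
    exact Nat.zero_le _
  · have h1 : L * ((B.card : ℤ) * L) ≤ L * (q * (q : ℤ) ^ c) := by
      have h2 : 0 ≤ L * (q : ℤ) ^ c := mul_nonneg hL0 hq0
      nlinarith
    have h3 : (B.card : ℤ) * L ≤ q * (q : ℤ) ^ c := le_of_mul_le_mul_left h1 h0
    have h4 : ((B.card * 𝒮.card : ℕ) : ℤ) ≤ ((q ^ (c + 1) : ℕ) : ℤ) := by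
      push_cast
      rw [pow_succ, mul_comm ((q : ℤ) ^ c)]
      exact h3
    exact_mod_cast h4

end Pool.Agent.RGC
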