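import Pool.Agent.RGC.Move
import Pool.Agent.RGC.Er

/-!
# RGC module RANGE: one range of handles
-/

namespace Pool.Agent.RGC

open Pool.Agent.PWI Finset

variable {g n : ℕ}

/-- The values of words in the handles `p ≤ k < q` depend only on the images of these handles. -/
theorem word {G : Type} [Group G] (p q : ℕ) (hq : q ≤ g) (w : SG g n) (hw : w ∈ (Wi p q : Subgroup (SG g n))) :
    ∃ φ : (Fin g ⊕ Fin g → G) → G, (∀ ρ : SG g n →* G, ρ w = φ (im ρ)) ∧
      ∀ u u' : Fin g ⊕ Fin g → G, (∀ i : Fin g, p ≤ i.val → i.val < q →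
        u (Sum.inl i) = u' (Sum.inl i) ∧ u (Sum.inr i) = u' (Sum.inr i)) → φ u = φ u' := by
  unfold Wi at hw
  induction hw using Subgroup.closure_induction with
  | mem x hx =>
    obtain ⟨k, h1, h2, h | h⟩ := hx
    · refine ⟨fun u => u (Sum.inl ⟨k, by omega⟩), fun ρ => by rw [h]; rfl, fun u u' hu => ?_⟩
      exact (hu ⟨k, by omega⟩ h1 h2).1
    · refine ⟨fun u => u (Sum.inr ⟨k, by omega⟩), fun ρ => by rw [h]; rfl, fun u u' hu => ?_⟩
      exact (hu ⟨k, by omega⟩ h1 h2).2
  | one => exact ⟨fun _ => 1, fun ρ => map_one ρ, fun _ _ _ => rfl⟩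
  | mul x y _ _ hx hy =>
    obtain ⟨φ, h1, h2⟩ := hx
    obtain ⟨ψ, h3, h4⟩ := hy
    refine ⟨fun u => φ u * ψ u, fun ρ => ?_, fun u u' hu => ?_⟩
    · rw [map_mul, h1, h3]
    · simp only [h2 u u' hu, h4 u u' hu]
  | inv x _ hx =>
    obtain ⟨φ, h1, h2⟩ := hx
    refine ⟨fun u => (φ u)⁻¹, fun ρ => ?_, fun u u' hu => ?_⟩
    · rw [map_inv, h1]
    · simp only [h2 u u' hu]

theorem map_sp {G H : Type*} [Group G] [Group H] (f : G →* H) (c : ℕ → G) (S : Finset ℕ) (m : ℕ) :
    f (sp c S m) = sp (fun j => f (c j)) S m := by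
  induction m with
  | zero => exact map_one f
  | succ m ih =>
    simp only [sp, map_mul, ih]
    split_ifs <;> simp

theorem sp_congr {G : Type*} [Group G] {c c' : ℕ → G} (S : Finset ℕ) (m : ℕ)
    (h : ∀ j < m, c j = c' j) : sp c S m = sp c' S m := by
  induction m with
  | zero => rfl
  | succ m ih =>
    simp only [sp, ih fun j hj => h j (by omega), h m (by omega)]

theorem sp_mem {G : Type*} [Group G] (K : Subgroup G) (c : ℕ → G) (S : Finset ℕ) (m : ℕ)
    (h : ∀ j < m, c j ∈ K) : sp c S m ∈ K := by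
  induction m with
  | zero => exact K.one_mem
  | succ m ih =>
    simp only [sp]
    refine K.mul_mem (ih fun j hj => h j (by omega)) ?_
    split_ifs
    · exact h m (by omega)
    · exact K.one_mem

/-- The coordinate of `a_k` (any coordinate for `k ≥ g`). -/
def cA (hg : 0 < g) (k : ℕ) : Fin g ⊕ Fin g := Sum.inl ⟨k % g, Nat.mod_lt _ hg⟩

theorem cA_of_lt (hg : 0 < g) {k : ℕ} (hk : k < g) : cA hg k = Sum.inl ⟨k, hk⟩ := by
  unfold cA
  simp only [Nat.mod_eq_of_lt hk]

theorem im_cA {G : Type} [Group G] (ρ : SG g n →* G) (hg : 0 < g) {k : ℕ} (hk : k < g) :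
    im ρ (cA hg k) = ρ (sa k) := by
  rw [cA_of_lt hg hk]
  rfl

theorem cA_inj (hg : 0 < g) {k l : ℕ} (hk : k < g) (hl : l < g) (h : cA hg k = cA hg l) : k = l := by
  rw [cA_of_lt hg hk, cA_of_lt hg hl] at h
  simpa using h

/-- For all but few tuples, some mapping class supported on the range takes the handle `s` to the kernel. -/
theorem range_bad {G : Type} [Group G] [Fintype G] [DecidableEq G] (s m : ℕ) (h : s + 2 * m + 1 ≤ g) :
    ∃ A : Finset (Fin g ⊕ Fin g → G), A.card * (2 ^ m - 1) ≤ 2 * Fintype.card G ^ (2 * g + 1) ∧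
      ∀ ρ : SG g n →* G, im ρ ∉ A → ∃ T : PMod g n, SuppI T s (s + 2 * m + 1) ∧
        ρ (T.1 (sa s)) = 1 ∧ ρ (T.1 (sb s)) = 1 := by
  classical
  have hg : 0 < g := by omega
  -- the first move and the words
  choose T1 hT1 hT1s using fun S : Finset ℕ => moveA (g := g) (n := n) s (s + 1) (by omega) S m (by omega)
  choose T2 hT2 hT2b hT2s using fun S : Finset ℕ =>
    moveB (g := g) (n := n) s (s + 1 + m) (by omega) S m (by omega)
  have hw : ∀ S, (T1 S).1 (sb s) ∈ (Wi s (s + 1 + m) : Subgroup (SG g n)) := fun S =>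
    ((hT1s S).2.2 s le_rfl (by omega)).2
  choose φ hφ1 hφ2 using fun S : Finset ℕ => word (G := G) s (s + 1 + m) (by omega) _ (hw S)
  -- the first choice
  let P1 : (Fin g ⊕ Fin g → G) → Finset ℕ → Prop := fun u S =>
    S ∈ (range m).powerset ∧ S.Nonempty ∧ sp (fun j => u (cA hg (s + 1 + j))) S m = (u (cA hg s))⁻¹
  let F : (Fin g ⊕ Fin g → G) → Finset ℕ := fun u => if h : ∃ S, P1 u S then h.choose else ∅
  have hF : ∀ u, (∃ S, P1 u S) → P1 u (F u) := by
    intro u hu
    simp only [F, dif_pos hu]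
    exact hu.choose_spec
  have hFc : ∀ u u' : Fin g ⊕ Fin g → G, P1 u = P1 u' → F u = F u' := by
    intro u u' huu
    simp only [F, huu]
  let A1 : Finset (Fin g ⊕ Fin g → G) := univ.filter fun u => ∀ S ∈ (range m).powerset,
    S.Nonempty → sp (fun j => u (cA hg (s + 1 + j))) S m ≠ (u (cA hg s))⁻¹
  let A2 : Finset (Fin g ⊕ Fin g → G) := univ.filter fun u => ∀ S ∈ (range m).powerset,
    S.Nonempty → sp (fun j => u (cA hg (s + 1 + m + j))) S m ≠ φ (F u) u
  have hcard : Fintype.card (Fin g ⊕ Fin g) = 2 * g := by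
    rw [Fintype.card_sum, Fintype.card_fin]
    ring
  have h1 : A1.card * (2 ^ m - 1) ≤ Fintype.card G ^ (2 * g + 1) := by
    rw [← hcard]
    refine er m (fun j => cA hg (s + 1 + j)) ?_ (fun u => (u (cA hg s))⁻¹) ?_
    · intro i hi j hj hij
      have := cA_inj hg (by omega) (by omega) hij
      omega
    · intro u i y hi
      have : cA hg s ≠ cA hg (s + 1 + i) := fun h => by
        have := cA_inj hg (by omega) (by omega) h
        omega
      simp only [Function.update_of_ne this]
  have h2 : A2.card * (2 ^ m - 1) ≤ Fintype.card G ^ (2 * g + 1) := by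
    rw [← hcard]
    refine er m (fun j => cA hg (s + 1 + m + j)) ?_ (fun u => φ (F u) u) ?_
    · intro i hi j hj hij
      have := cA_inj hg (by omega) (by omega) hij
      omega
    · intro u i y hi
      have hne : ∀ k, k < s + 1 + m → cA hg k ≠ cA hg (s + 1 + m + i) := fun k hk h => by
        have := cA_inj hg (by omega) (by omega) h
        omega
      have hP : P1 (Function.update u (cA hg (s + 1 + m + i)) y) = P1 u := by
        funext S
        have e1 : sp (fun j => Function.update u (cA hg (s + 1 + m + i)) y (cA hg (s + 1 + j))) S m =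
            sp (fun j => u (cA hg (s + 1 + j))) S m := by
          refine sp_congr S m fun j hj => ?_
          exact Function.update_of_ne (hne _ (by omega)) _ _
        simp only [P1, e1, Function.update_of_ne (hne s (by omega))]
      rw [hFc _ _ hP]
      refine hφ2 _ _ _ fun k hk1 hk2 => ⟨?_, ?_⟩
      · refine Function.update_of_ne ?_ _ _
        rw [← cA_of_lt hg k.2]
        exact hne _ (by omega)
      · refine Function.update_of_ne ?_ _ _
        simp [cA]
  refine ⟨A1 ∪ A2, ?_, ?_⟩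
  · calc (A1 ∪ A2).card * (2 ^ m - 1) ≤ (A1.card + A2.card) * (2 ^ m - 1) :=
        Nat.mul_le_mul_right _ (card_union_le _ _)
      _ = A1.card * (2 ^ m - 1) + A2.card * (2 ^ m - 1) := by ring
      _ ≤ Fintype.card G ^ (2 * g + 1) + Fintype.card G ^ (2 * g + 1) := Nat.add_le_add h1 h2
      _ = 2 * Fintype.card G ^ (2 * g + 1) := by ring
  · intro ρ hρ
    rw [mem_union, not_or] at hρ
    obtain ⟨hρ1, hρ2⟩ := hρ
    simp only [A1, A2, mem_filter, mem_univ, true_and, not_forall, not_not, exists_prop] at hρ1 hρ2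
    have hP := hF (im ρ) (by
      obtain ⟨S, h1, h2, h3⟩ := hρ1
      exact ⟨S, h1, h2, h3⟩)
    obtain ⟨S', hS1, hS2, hS3⟩ := hρ2
    set S := F (im ρ) with hS
    obtain ⟨_, _, hP3⟩ := hP
    have ea : sp (fun j => im ρ (cA hg (s + 1 + j))) S m = sp (fun j => ρ (sa (s + 1 + j))) S m :=
      sp_congr S m fun j hj => im_cA ρ hg (by omega)
    have eb : sp (fun j => im ρ (cA hg (s + 1 + m + j))) S' m =
        sp (fun j => ρ (sa (s + 1 + m + j))) S' m :=
      sp_congr S' m fun j hj => im_cA ρ hg (by omega)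
    rw [ea, im_cA ρ hg (by omega)] at hP3
    rw [eb, ← hφ1 S ρ] at hS3
    refine ⟨T1 S * T2 S', ?_, ?_, ?_⟩
    · have e : s + 2 * m + 1 = s + 1 + m + m := by ring
      rw [e]
      exact ((hT1s S).mono le_rfl (by omega)).mul (hT2s S')
    · rw [act_mul', hT2, hT1, map_mul, map_sp, hP3, mul_inv_cancel]
    · rw [act_mul', hT2b, map_mul, map_inv]
      have e : (T1 S).1 (sp (fun j => sa (s + 1 + m + j)) S' m) = sp (fun j => sa (s + 1 + m + j)) S' m := by
        refine (hT1s S).fix (r := s + 1 + m) (s := s + 1 + m + m) (Or.inr le_rfl) ?_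
        refine sp_mem _ _ _ _ fun j hj => ?_
        exact Subgroup.subset_closure ⟨_, by omega, by omega, Or.inl rfl⟩
      rw [e, map_mul, map_inv, map_sp, hS3, inv_mul_cancel]

end Pool.Agent.RGC
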