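import Pool.Agent.RGC.Slide

/-!
# RGC module ASM: disjoint ranges together
-/

namespace Pool.Agent.RGC

open Pool.Agent.PWI

variable {g n : ℕ}

theorem act_mul2 (S T : PMod g n) (x : SG g n) : (S * T).1 x = S.1 (T.1 x) := rfl

theorem sa_mem_wi {p q k : ℕ} (h1 : p ≤ k) (h2 : k < q) : (sa k : SG g n) ∈ (Wi p q : Subgroup (SG g n)) :=
  Subgroup.subset_closure ⟨k, h1, h2, Or.inl rfl⟩

theorem sb_mem_wi {p q k : ℕ} (h1 : p ≤ k) (h2 : k < q) : (sb k : SG g n) ∈ (Wi p q : Subgroup (SG g n)) :=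
  Subgroup.subset_closure ⟨k, h1, h2, Or.inr rfl⟩

/-- Handles `t l` brought to places `t`. -/
theorem gather (l : ℕ) (hl : 1 ≤ l) (k : ℕ) (hg : k * l ≤ g) : ∃ B : PMod g n,
    (∀ t < k, B.1 (sa t) = sa (t * l) ∧ B.1 (sb t) = sb (t * l)) ∧
      ∀ i, k * l ≤ i → B.1 (sa i) = sa i ∧ B.1 (sb i) = sb i := by
  induction k with
  | zero => exact ⟨1, fun t ht => absurd ht (Nat.not_lt_zero _), fun i _ => ⟨rfl, rfl⟩⟩
  | succ k ih =>
    have e : (k + 1) * l = k * l + l := by ring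
    obtain ⟨B, hB1, hB2⟩ := ih (by omega)
    have hkl : k ≤ k * l := Nat.le_mul_of_pos_right _ hl
    obtain ⟨R, hR1, hR2, hRs⟩ := bring (g := g) (n := n) k (k * l) hkl (by omega)
    refine ⟨B * R, ?_, ?_⟩
    · intro t ht
      rw [act_mul2, act_mul2]
      rcases Nat.lt_succ_iff_lt_or_eq.1 ht with h | h
      · rw [(hRs.1 t (Or.inl h)).1, (hRs.1 t (Or.inl h)).2]
        exact hB1 t h
      · subst h
        rw [hR1, hR2]
        exact hB2 _ le_rfl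
    · intro i hi
      rw [act_mul2, act_mul2, (hRs.1 i (Or.inr (by omega))).1, (hRs.1 i (Or.inr (by omega))).2]
      exact hB2 i (by omega)

theorem asm_aux {G : Type} [Group G] (ρ : SG g n →* G) (l : ℕ) (hl : 1 ≤ l) (k : ℕ)
    (h : ∀ t < k, ∃ T : PMod g n, SuppI T (t * l) (t * l + l) ∧ ρ (T.1 (sa (t * l))) = 1 ∧
      ρ (T.1 (sb (t * l))) = 1) :
    ∃ T : PMod g n, SuppI T 0 (k * l) ∧
      ∀ t < k, ρ (T.1 (sa (t * l))) = 1 ∧ ρ (T.1 (sb (t * l))) = 1 := by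
  induction k with
  | zero =>
    refine ⟨1, ⟨fun k _ => ⟨rfl, rfl⟩, fun j => rfl, fun k h1 h2 => ⟨?_, ?_⟩⟩,
      fun t ht => absurd ht (Nat.not_lt_zero _)⟩
    · exact sa_mem_wi h1 h2
    · exact sb_mem_wi h1 h2
  | succ k ih =>
    have e : (k + 1) * l = k * l + l := by ring
    obtain ⟨S, hS1, hS2⟩ := ih fun t ht => h t (by omega)
    obtain ⟨T, hT1, hT2, hT3⟩ := h k (by omega)
    refine ⟨S * T, ?_, ?_⟩
    · rw [e]
      exact (hS1.mono le_rfl (by omega)).mul (hT1.mono (Nat.zero_le _) le_rfl)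
    · intro t ht
      rw [act_mul2, act_mul2]
      rcases Nat.lt_succ_iff_lt_or_eq.1 ht with h | h
      · have h3 : t * l < k * l := Nat.mul_lt_mul_of_pos_right h hl
        rw [(hT1.1 (t * l) (Or.inl h3)).1, (hT1.1 (t * l) (Or.inl h3)).2]
        exact hS2 t h
      · subst h
        rw [hS1.fix (Or.inr le_rfl) (hT1.mem (sa_mem_wi le_rfl (by omega))),
          hS1.fix (Or.inr le_rfl) (hT1.mem (sb_mem_wi le_rfl (by omega)))]
        exact ⟨hT2, hT3⟩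

/-- Ranges `[t l, (t+1) l)`, `t < k`. -/
theorem asm {G : Type} [Group G] (ρ : SG g n →* G) (k l : ℕ) (hl : 1 ≤ l) (hg : k * l ≤ g)
    (h : ∀ t < k, ∃ T : PMod g n, SuppI T (t * l) (t * l + l) ∧ ρ (T.1 (sa (t * l))) = 1 ∧
      ρ (T.1 (sb (t * l))) = 1) :
    ∃ T : PMod g n, ∀ t < k, ρ (T.1 (sa t)) = 1 ∧ ρ (T.1 (sb t)) = 1 := by
  obtain ⟨T, _, hT⟩ := asm_aux ρ l hl k h
  obtain ⟨B, hB, _⟩ := gather (g := g) (n := n) l hl k hg
  refine ⟨T * B, fun t ht => ?_⟩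
  rw [act_mul2, act_mul2, (hB t ht).1, (hB t ht).2]
  exact hT t ht

end Pool.Agent.RGC
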