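import Pool.Agent.PWI.State
import Pool.Agent.PWI.Auto

/-!
# RGC: almost all covers with a given group, definitions

`sp c S m` is the ordered product of the `c j`, `j < m`, `j ∈ S`.
`Wi p q` is generated by the handles `p ≤ k < q`; `SuppI T p q`: `T` is supported on these handles.
`im ρ` collects the images of the handle generators.
-/

namespace Pool.Agent.RGC

open Pool.Agent.PWI

/-- Ordered subproduct. -/
def sp {G : Type*} [Group G] (c : ℕ → G) (S : Finset ℕ) : ℕ → G
  | 0 => 1
  | j + 1 => sp c S j * (if j ∈ S then c j else 1)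

variable {g n : ℕ}

/-- The subgroup generated by the handles `p ≤ k < q`. -/
def Wi (p q : ℕ) : Subgroup (SG g n) :=
  Subgroup.closure {x | ∃ k, p ≤ k ∧ k < q ∧ (x = sa k ∨ x = sb k)}

/-- `T` is supported on the handles `p ≤ k < q`. -/
def SuppI (T : PMod g n) (p q : ℕ) : Prop :=
  (∀ k, k < p ∨ q ≤ k → T.1 (sa k) = sa k ∧ T.1 (sb k) = sb k) ∧ (∀ j, T.1 (sz j) = sz j) ∧
    ∀ k, p ≤ k → k < q → T.1 (sa k) ∈ (Wi p q : Subgroup (SG g n)) ∧
      T.1 (sb k) ∈ (Wi p q : Subgroup (SG g n))

/-- The images of the handle generators. -/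
def im {G : Type} [Group G] (ρ : SG g n →* G) : Fin g ⊕ Fin g → G
  | Sum.inl i => ρ (sa i)
  | Sum.inr i => ρ (sb i)

end Pool.Agent.RGC
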