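import Pool.Agent.RGC.Range
import Pool.Agent.RGC.Asm
import Pool.Agent.RGC.HomC

/-!
# RGC module FIN: the count
-/

namespace Pool.Agent.RGC

open Pool.Agent.PWI Finset

/-- The finite set of bad tuples. -/
theorem bad_set {G : Type} [Group G] [Fintype G] [DecidableEq G] (g n m k : ℕ)
    (h : k * (2 * m + 1) ≤ g) :
    ∃ A : Finset (Fin g ⊕ Fin g → G), A.card * (2 ^ m - 1) ≤ 2 * k * Fintype.card G ^ (2 * g + 1) ∧
      ∀ ρ : SG g n →* G, im ρ ∉ A → ∃ T : PMod g n, ∀ t < k, ρ (T.1 (sa t)) = 1 ∧ ρ (T.1 (sb t)) = 1 := by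
  classical
  have hr : ∀ t : ℕ, ∃ A : Finset (Fin g ⊕ Fin g → G), t < k →
      (A.card * (2 ^ m - 1) ≤ 2 * Fintype.card G ^ (2 * g + 1) ∧
      ∀ ρ : SG g n →* G, im ρ ∉ A → ∃ T : PMod g n,
        SuppI T (t * (2 * m + 1)) (t * (2 * m + 1) + (2 * m + 1)) ∧
        ρ (T.1 (sa (t * (2 * m + 1)))) = 1 ∧ ρ (T.1 (sb (t * (2 * m + 1)))) = 1) := by
    intro t
    by_cases ht : t < k
    · have h1 : (t + 1) * (2 * m + 1) ≤ k * (2 * m + 1) := Nat.mul_le_mul_right _ ht
      have h2 : (t + 1) * (2 * m + 1) = t * (2 * m + 1) + (2 * m + 1) := by ring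
      obtain ⟨A, hA1, hA2⟩ := range_bad (g := g) (n := n) (G := G) (t * (2 * m + 1)) m (by omega)
      exact ⟨A, fun _ => ⟨hA1, hA2⟩⟩
    · exact ⟨∅, fun h => absurd h ht⟩
  choose A hA using hr
  refine ⟨(range k).biUnion A, ?_, ?_⟩
  · calc ((range k).biUnion A).card * (2 ^ m - 1) ≤ (∑ t ∈ range k, (A t).card) * (2 ^ m - 1) :=
        Nat.mul_le_mul_right _ card_biUnion_le
      _ = ∑ t ∈ range k, (A t).card * (2 ^ m - 1) := Finset.sum_mul _ _ _
      _ ≤ ∑ _t ∈ range k, 2 * Fintype.card G ^ (2 * g + 1) :=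
        Finset.sum_le_sum fun t ht => (hA t (mem_range.1 ht)).1
      _ = 2 * k * Fintype.card G ^ (2 * g + 1) := by
        rw [sum_const, card_range, smul_eq_mul]
        ring
  · intro ρ hρ
    refine asm ρ k (2 * m + 1) (by omega) h fun t ht => (hA t ht).2 ρ fun hmem => hρ ?_
    exact mem_biUnion.2 ⟨t, mem_range.2 ht, hmem⟩

theorem count_aux {G : Type} [Group G] [Fintype G] [DecidableEq G] (g n m k : ℕ)
    (h : k * (2 * m + 1) ≤ g) :
    Nat.card {ρ : Pi1 g n →* G // ¬ HasHandles ρ.ker k} * (2 ^ m - 1) ≤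
      2 * k * Fintype.card G * Fintype.card G ^ (2 * g + (n - 1)) := by
  obtain ⟨A, hA1, hA2⟩ := bad_set (G := G) g n m k h
  have := hom_finite g n G
  have h1 : Nat.card {ρ : Pi1 g n →* G // ¬ HasHandles ρ.ker k} ≤
      Nat.card {ρ : SG g n →* G // im ρ ∈ A} := by
    refine Nat.card_le_card_of_injective
      (fun ρ => (⟨ρ.1, ?_⟩ : {ρ : SG g n →* G // im ρ ∈ A})) ?_
    · by_contra hc
      obtain ⟨T, hT⟩ := hA2 ρ.1 hc
      exact ρ.2 ⟨T, fun i hi => hT i hi⟩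
    · intro ρ ρ' hρ
      exact Subtype.ext (congrArg (fun x : {ρ : SG g n →* G // im ρ ∈ A} => x.1) hρ)
  calc Nat.card {ρ : Pi1 g n →* G // ¬ HasHandles ρ.ker k} * (2 ^ m - 1)
      ≤ (A.card * Fintype.card G ^ (n - 1)) * (2 ^ m - 1) :=
        Nat.mul_le_mul_right _ (h1.trans (hom_upper A))
    _ = A.card * (2 ^ m - 1) * Fintype.card G ^ (n - 1) := by ring
    _ ≤ 2 * k * Fintype.card G ^ (2 * g + 1) * Fintype.card G ^ (n - 1) := Nat.mul_le_mul_right _ hA1
    _ = 2 * k * Fintype.card G * Fintype.card G ^ (2 * g + (n - 1)) := by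
        rw [pow_succ, pow_add]
        ring

/-- The number of homomorphisms whose kernel does not contain `k` handles. -/
theorem count_bad {G : Type} [Group G] [Finite G] (g n m k : ℕ) (h : k * (2 * m + 1) ≤ g) :
    Nat.card {ρ : Pi1 g n →* G // ¬ HasHandles ρ.ker k} * (2 ^ m - 1) ≤
      2 * k * Nat.card G ^ 3 * Nat.card (Pi1 g n →* G) := by
  classical
  have := Fintype.ofFinite G
  rw [Nat.card_eq_fintype_card (α := G)]
  refine (count_aux g n m k h).trans ?_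
  calc 2 * k * Fintype.card G * Fintype.card G ^ (2 * g + (n - 1))
      ≤ 2 * k * Fintype.card G * (Fintype.card G ^ 2 * Nat.card (SG g n →* G)) :=
        Nat.mul_le_mul_left _ (hom_lower g n G)
    _ = 2 * k * Fintype.card G ^ 3 * Nat.card (SG g n →* G) := by ring

theorem count_bad_pos {G : Type} [Group G] [Finite G] (g n m k : ℕ) (hn : 1 ≤ n)
    (h : k * (2 * m + 1) ≤ g) :
    Nat.card {ρ : Pi1 g n →* G // ¬ HasHandles ρ.ker k} * (2 ^ m - 1) ≤
      2 * k * Nat.card G * Nat.card (Pi1 g n →* G) := by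
  classical
  have := Fintype.ofFinite G
  rw [Nat.card_eq_fintype_card (α := G)]
  refine (count_aux g n m k h).trans ?_
  exact Nat.mul_le_mul_left _ (hom_lower_pos g n hn G)

end Pool.Agent.RGC
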