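import Pool.Agent.RGC.Slide

/-!
# RGC module MOVE

Proof. Induction on `m`.  If `m ∉ S` nothing changes.  If `m ∈ S` compose `T` (supported on `[s, r + m)`) with
`W`, supported on `[s, r + m]`, `W (a_s) = a_s a_(r+m)` (`W = B V`, `V` the slide at `s`, `B` = `bring (s+1) (r+m)`):
`T (W a_s) = T (a_s) a_(r+m)`; the same for `b`.
-/

namespace Pool.Agent.RGC

open Pool.Agent.PWI

variable {g n : ℕ}

theorem suppI_one (p q : ℕ) : SuppI (1 : PMod g n) p q := by
  refine ⟨fun k _ => ⟨rfl, rfl⟩, fun j => rfl, fun k h1 h2 => ⟨?_, ?_⟩⟩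
  · exact Subgroup.subset_closure ⟨k, h1, h2, Or.inl rfl⟩
  · exact Subgroup.subset_closure ⟨k, h1, h2, Or.inr rfl⟩

theorem act_mul' (S T : PMod g n) (x : SG g n) : (S * T).1 x = S.1 (T.1 x) := rfl

/-- The slide of `a_s` over a far handle. -/
theorem farV (s q : ℕ) (hs : s < q) (hq : q < g) : ∃ T : PMod g n,
    T.1 (sa s) = sa s * sa q ∧ SuppI T s (q + 1) := by
  obtain ⟨V, hV, hVs⟩ := slideV (g := g) (n := n) s (by omega)
  obtain ⟨B, hB1, hB2, hBs⟩ := bring (g := g) (n := n) (s + 1) q (by omega) hq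
  refine ⟨B * V, ?_, ?_⟩
  · rw [act_mul', hV, map_mul, hB1, (hBs.1 s (Or.inl (by omega))).1]
  · exact (hBs.mono (by omega) le_rfl).mul (hVs.mono le_rfl (by omega))

/-- The slide of `b_s` over a far handle. -/
theorem farU (s q : ℕ) (hs : s < q) (hq : q < g) : ∃ T : PMod g n,
    T.1 (sa s) = sa s ∧ T.1 (sb s) = (sa q)⁻¹ * sb s ∧ SuppI T s (q + 1) := by
  obtain ⟨V, hV, hV2, hVs⟩ := slideU (g := g) (n := n) s (by omega)
  obtain ⟨B, hB1, hB2, hBs⟩ := bring (g := g) (n := n) (s + 1) q (by omega) hq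
  refine ⟨B * V, ?_, ?_, ?_⟩
  · rw [act_mul', hV, (hBs.1 s (Or.inl (by omega))).1]
  · rw [act_mul', hV2, map_mul, map_inv, hB1, (hBs.1 s (Or.inl (by omega))).2]
  · exact (hBs.mono (by omega) le_rfl).mul (hVs.mono le_rfl (by omega))

theorem moveA (s r : ℕ) (hr : s < r) (S : Finset ℕ) (m : ℕ) (h : r + m ≤ g) : ∃ T : PMod g n,
    T.1 (sa s) = sa s * sp (fun j => sa (r + j)) S m ∧ SuppI T s (r + m) := by
  induction m with
  | zero => exact ⟨1, by simp [sp], suppI_one _ _⟩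
  | succ m ih =>
    obtain ⟨T, hT, hTs⟩ := ih (by omega)
    by_cases hm : m ∈ S
    · obtain ⟨W, hW, hWs⟩ := farV (g := g) (n := n) s (r + m) (by omega) (by omega)
      refine ⟨T * W, ?_, (hTs.mono le_rfl (by omega)).mul (hWs.mono le_rfl (by omega))⟩
      rw [act_mul', hW, map_mul, hT, (hTs.1 (r + m) (Or.inr le_rfl)).1]
      simp only [sp, if_pos hm, mul_assoc]
    · refine ⟨T, ?_, hTs.mono le_rfl (by omega)⟩
      rw [hT]
      simp only [sp, if_neg hm, mul_one]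

theorem moveB (s r : ℕ) (hr : s < r) (S : Finset ℕ) (m : ℕ) (h : r + m ≤ g) : ∃ T : PMod g n,
    T.1 (sa s) = sa s ∧ T.1 (sb s) = (sp (fun j => sa (r + j)) S m)⁻¹ * sb s ∧
      SuppI T s (r + m) := by
  induction m with
  | zero => exact ⟨1, rfl, by simp [sp], suppI_one _ _⟩
  | succ m ih =>
    obtain ⟨T, hT, hT2, hTs⟩ := ih (by omega)
    by_cases hm : m ∈ S
    · obtain ⟨W, hW, hW2, hWs⟩ := farU (g := g) (n := n) s (r + m) (by omega) (by omega)
      refine ⟨T * W, ?_, ?_, (hTs.mono le_rfl (by omega)).mul (hWs.mono le_rfl (by omega))⟩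
      · rw [act_mul', hW, hT]
      · rw [act_mul', hW2, map_mul, map_inv, hT2, (hTs.1 (r + m) (Or.inr le_rfl)).1]
        simp only [sp, if_pos hm, mul_assoc, mul_inv_rev]
    · refine ⟨T, hT, ?_, hTs.mono le_rfl (by omega)⟩
      rw [hT2]
      simp only [sp, if_neg hm, mul_one]

end Pool.Agent.RGC
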