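import Pool.Agent.RGC.Defs
import Pool.Agent.PWJ.Sup

/-!
# RGC module SLIDE: the two elementary moves, and bringing handles

Everything is from helper37's module PWJ/Sup (slides `exU`, `exV` and `bring`).
-/

namespace Pool.Agent.RGC

open Pool.Agent.PWI

variable {g n : ℕ}

theorem suppI_of {T : PMod g n} {p q : ℕ} (h : Pool.Agent.PWI.SuppI T p q) : SuppI T p q := by
  refine ⟨fun k hk => h.1.1 k (by simp only [Set.mem_ofPred_eq]; omega), h.1.2, fun k h1 h2 => ⟨?_, ?_⟩⟩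
  · exact h.2.1 _ (Pool.Agent.PWI.sa_mem_Wi h1 h2)
  · exact h.2.1 _ (Pool.Agent.PWI.sb_mem_Wi h1 h2)

theorem wi_mono {p q p' q' : ℕ} (hp : p' ≤ p) (hq : q ≤ q') :
    (Wi p q : Subgroup (SG g n)) ≤ Wi p' q' := Pool.Agent.PWI.Wi_mono hp hq

theorem SuppI.mono {T : PMod g n} {p q p' q' : ℕ} (h : SuppI T p q) (hp : p' ≤ p) (hq : q ≤ q') :
    SuppI T p' q' := by
  refine ⟨fun k hk => h.1 k (by omega), h.2.1, fun k h1 h2 => ?_⟩
  by_cases hk : p ≤ k ∧ k < q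
  · exact ⟨wi_mono hp hq (h.2.2 k hk.1 hk.2).1, wi_mono hp hq (h.2.2 k hk.1 hk.2).2⟩
  · have h3 := h.1 k (by omega)
    rw [h3.1, h3.2]
    exact ⟨Pool.Agent.PWI.sa_mem_Wi h1 h2, Pool.Agent.PWI.sb_mem_Wi h1 h2⟩

theorem SuppI.mem {T : PMod g n} {p q : ℕ} (h : SuppI T p q) {x : SG g n} (hx : x ∈ (Wi p q : Subgroup (SG g n))) :
    T.1 x ∈ (Wi p q : Subgroup (SG g n)) :=
  Pool.Agent.PWI.Wi_map_le T _ (fun k h1 h2 => h.2.2 k h1 h2) x hx

/-- `T` fixes the words in handles outside its support. -/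
theorem SuppI.fix {T : PMod g n} {p q r s : ℕ} (h : SuppI T p q) (hrs : s ≤ p ∨ q ≤ r) {x : SG g n}
    (hx : x ∈ (Wi r s : Subgroup (SG g n))) : T.1 x = x := by
  unfold Wi at hx
  induction hx using Subgroup.closure_induction with
  | mem x hx =>
    obtain ⟨k, h1, h2, hk⟩ := hx
    have h3 := h.1 k (by omega)
    rcases hk with rfl | rfl
    · exact h3.1
    · exact h3.2
  | one => rw [map_one]
  | mul x y _ _ hx hy => rw [map_mul, hx, hy]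
  | inv x _ hx => rw [map_inv, hx]

theorem SuppI.mul {S T : PMod g n} {p q : ℕ} (hS : SuppI S p q) (hT : SuppI T p q) :
    SuppI (S * T) p q := by
  refine ⟨fun k hk => ⟨?_, ?_⟩, fun j => ?_, fun k h1 h2 => ⟨?_, ?_⟩⟩
  · show S.1 (T.1 (sa k)) = sa k
    rw [(hT.1 k hk).1, (hS.1 k hk).1]
  · show S.1 (T.1 (sb k)) = sb k
    rw [(hT.1 k hk).2, (hS.1 k hk).2]
  · show S.1 (T.1 (sz j)) = sz j
    rw [hT.2.1, hS.2.1]
  · exact hS.mem (hT.2.2 k h1 h2).1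
  · exact hS.mem (hT.2.2 k h1 h2).2

/-- The slide `V`. -/
theorem slideV (i : ℕ) (h : i + 2 ≤ g) : ∃ T : PMod g n, T.1 (sa i) = sa i * sa (i + 1) ∧
    SuppI T i (i + 2) := by
  obtain ⟨T, h1, h2⟩ := Pool.Agent.PWI.exV (g := g) (n := n) i (by omega)
  exact ⟨T, h2, suppI_of h1⟩

/-- The slide `U`. -/
theorem slideU (i : ℕ) (h : i + 2 ≤ g) : ∃ T : PMod g n, T.1 (sa i) = sa i ∧
    T.1 (sb i) = (sa (i + 1))⁻¹ * sb i ∧ SuppI T i (i + 2) := by
  obtain ⟨T, h1, h2, h3⟩ := Pool.Agent.PWI.exU (g := g) (n := n) i (by omega)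
  exact ⟨T, h2, h3, suppI_of h1⟩

/-- Some mapping class supported on the handles `p, ..., q` takes handle `p` to handle `q`. -/
theorem bring (p q : ℕ) (h : p ≤ q) (hq : q < g) : ∃ T : PMod g n, T.1 (sa p) = sa q ∧
    T.1 (sb p) = sb q ∧ SuppI T p (q + 1) := by
  obtain ⟨T, h1, h2, h3⟩ := Pool.Agent.PWI.bring (g := g) (n := n) p q h hq
  exact ⟨T⁻¹, act_inv_eq h2, act_inv_eq h3, suppI_of h1.inv⟩

end Pool.Agent.RGC
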